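import Pool.Agent.H27.Modu

set_option autoImplicit false

open Filter Topology ENNReal Pool.Agent.H27.Modu

namespace Pool.Agent.Results.MP_106cb8_an.NotRegular

/-- Convex, left-continuous modulars. -/
structure IsModular {X : Type*} [AddCommGroup X] [Module ℝ X] (ρ : X → ℝ≥0∞) : Prop where
  eq_zero : ∀ u, ρ u = 0 ↔ u = 0
  sign : ∀ (a : ℝ) u, |a| = 1 → ρ (a • u) = ρ u
  convex : ∀ a : ℝ, 0 ≤ a → a ≤ 1 → ∀ u v, ρ (a • u + (1 - a) • v) ≤
    ENNReal.ofReal a * ρ u + ENNReal.ofReal (1 - a) * ρ v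
  left : ∀ u (t : ℝ), 0 < t → Tendsto (fun s : ℝ => ρ (s • u)) (𝓝[<] t) (𝓝 (ρ (t • u)))

theorem modular {p : ℕ → ℝ} (hp : ∀ n, 1 ≤ p n) : IsModular (rho p) where
  eq_zero := rho_zero hp
  sign := fun a u h => by simp [rho, abs_mul, h]
  convex := fun a h0 h1 u v => by
    have h2 : 0 ≤ 1 - a := by linarith
    simp only [rho, ← ENNReal.tsum_mul_left, ← ENNReal.tsum_add]
    refine ENNReal.tsum_le_tsum fun j => ?_
    rw [← ENNReal.ofReal_mul h0, ← ENNReal.ofReal_mul h2,
      ← ENNReal.ofReal_add (by positivity) (by positivity)]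
    refine ENNReal.ofReal_le_ofReal (le_trans ?_
      ((convexOn_rpow (hp j)).2 (abs_nonneg (u j)) (abs_nonneg (v j)) h0 h2 (by ring)))
    refine Real.rpow_le_rpow (abs_nonneg _) ((abs_add_le _ _).trans_eq ?_) (by linarith [hp j])
    simp [abs_mul, abs_of_nonneg h0, abs_of_nonneg h2]
  left := fun u t ht => by
    refine tendsto_order.2 ⟨fun a ha => nhdsWithin_le_nhds (lowerSemicontinuous_tsum
      (f := fun j (s : ℝ) => ENNReal.ofReal (|(s • u) j| ^ p j)) (fun j =>
        (ENNReal.continuous_ofReal.comp (Continuous.rpow_const (by fun_prop) fun _ =>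
          Or.inr (by linarith [hp j]))).lowerSemicontinuous) t a ha), fun a ha => ?_⟩
    filter_upwards [Ioo_mem_nhdsLT ht] with s hs
    refine lt_of_le_of_lt (ENNReal.tsum_le_tsum fun j => ENNReal.ofReal_le_ofReal
      (Real.rpow_le_rpow (abs_nonneg _) ?_ (by linarith [hp j]))) ha
    simp only [Pi.smul_apply, smul_eq_mul, abs_mul, abs_of_pos ht, abs_of_pos hs.1]
    exact mul_le_mul_of_nonneg_right hs.2.le (abs_nonneg _)

theorem result : ∃ (X : Type) (_ : AddCommGroup X) (_ : Module ℝ X) (ρ : X → ℝ≥0∞),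
    IsModular ρ ∧ NotRegular ρ :=
  ⟨ℕ → ℝ, inferInstance, inferInstance, rho fun n => n + 1, modular fun n => by simp,
    notRegular (fun n => by simp) fun ⟨M, hM⟩ => by
      obtain ⟨n, hn⟩ := exists_nat_gt M
      linarith [hM ⟨n, rfl⟩]⟩

end Pool.Agent.Results.MP_106cb8_an.NotRegular
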